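import Mathlib
import Pool.Agent.Lib.helper23.TdcC

set_option autoImplicit false

open Filter

namespace Pool.Agent.Results.MP_13fe47_al.Main

/-- products of at most `n` elements of `X` and their inverses -/
def ball {G : Type} [Group G] (X : Finset G) (n : ℕ) : Set G :=
  {g | ∃ l : List G, l.length ≤ n ∧ (∀ x ∈ l, x ∈ X ∨ x⁻¹ ∈ X) ∧ l.prod = g}

/-- the degree of twisted commutativity with respect to `X` -/
noncomputable def tdc {G : Type} [Group G] (X : Finset G) (φ : G →* G) : ℝ :=
  limsup (fun n : ℕ => ({p : G × G | p.1 ∈ ball X n ∧ p.2 ∈ ball X n ∧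
    p.1 * p.2 = p.2 * φ p.1}.ncard : ℝ) / ((ball X n).ncard : ℝ) ^ 2) atTop

/-- the degree of twisted commutativity of a finite group -/
noncomputable def tdcFin {F : Type} [Group F] (ψ : F →* F) : ℝ :=
  ({p : F × F | p.1 * p.2 = p.2 * ψ p.1}.ncard : ℝ) / (Nat.card F : ℝ) ^ 2

/-- the infimum over the finite quotients by invariant normal subgroups -/
noncomputable def quotInf {G : Type} [Group G] (φ : G →* G) : ℝ :=
  sInf {r | ∃ (N : Subgroup G) (_ : N.Normal) (_ : N.FiniteIndex) (h : N ≤ N.comap φ),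
    r = tdcFin (QuotientGroup.map N N φ h)}

theorem result (G : Type) [Group G] (A : Subgroup G) (hA : A.FiniteIndex)
    (hc : ∀ a ∈ A, ∀ b ∈ A, a * b = b * a) (X : Finset G)
    (hX : Subgroup.closure (X : Set G) = ⊤) (φ : G →* G) : tdc X φ = quotInf φ :=
  (Lib.helper23.Tdc.main A hc φ X hX).limsup_eq

end Pool.Agent.Results.MP_13fe47_al.Main
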